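import Pool.Agent.P.MP_f92aba_nt.Dense

set_option autoImplicit false

namespace Pool.Agent.Results.MP_f92aba_nt.DenseRelations

open Filter

/-- Every set of at least `C N / log N` integers between `2` and `N` contains two different,
disjoint subsets of the same size with the same product of `t!` and the same product of
`t! / t^t`. -/
theorem result : ∃ C : ℝ, ∀ᶠ N : ℕ in atTop, ∀ A ⊆ Finset.Icc 2 N,
    C * N / Real.log N ≤ A.card →
      ∃ T ⊆ A, ∃ S ⊆ A, T ≠ S ∧ Disjoint T S ∧ T.card = S.card ∧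
        ∏ t ∈ T, Nat.factorial t = ∏ u ∈ S, Nat.factorial u ∧
        ∏ t ∈ T, ((Nat.factorial t : ℚ) / (t : ℚ) ^ t) =
          ∏ u ∈ S, ((Nat.factorial u : ℚ) / (u : ℚ) ^ u) := by
  obtain ⟨C, hC⟩ := Pool.Agent.P.MP_f92aba_nt.main
  refine ⟨C, hC.mono fun N h A hA => h A fun t ht => ?_⟩
  have := Finset.mem_Icc.1 (hA ht)
  exact Finset.mem_Ioc.2 ⟨by omega, this.2⟩

/-- The negated form of the question is the case where `A` is the whole interval. -/
theorem negated_form :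
    ∃ T S : Finset ℕ, (∀ t ∈ T, 2 ≤ t) ∧ (∀ u ∈ S, 2 ≤ u) ∧ T ≠ S ∧ Disjoint T S ∧
      ∏ t ∈ T, ((Nat.factorial t : ℚ) / (t : ℚ) ^ t) =
        ∏ u ∈ S, ((Nat.factorial u : ℚ) / (u : ℚ) ^ u) := by
  obtain ⟨C, hC⟩ := result
  have hl : ∀ᶠ N : ℕ in atTop, 2 * |C| + 1 ≤ Real.log N :=
    (Real.tendsto_log_atTop.comp tendsto_natCast_atTop_atTop).eventually_ge_atTop _
  obtain ⟨N, h, h1, h2⟩ := (hC.and (hl.and (eventually_ge_atTop 2))).exists
  have h3 : (2 : ℝ) ≤ N := by exact_mod_cast h2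
  have h4 := abs_nonneg C
  have h5 := le_abs_self C
  obtain ⟨T, hT, S, hS, a, b, -, -, c⟩ := h _ subset_rfl (by
    rw [Nat.card_Icc, show N + 1 - 2 = N - 1 by omega, Nat.cast_sub (by omega),
      div_le_iff₀ (by linarith)]
    push_cast
    nlinarith)
  exact ⟨T, S, fun t ht => (Finset.mem_Icc.1 (hT ht)).1, fun t ht => (Finset.mem_Icc.1 (hS ht)).1,
    a, b, c⟩

/-- The order `N / log N` cannot be lowered: sets of primes carry no relation. -/
theorem primes_free (T S : Finset ℕ) (hT : ∀ t ∈ T, t.Prime) (hS : ∀ u ∈ S, u.Prime)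
    (e : ∏ t ∈ T, ((Nat.factorial t : ℚ) / (t : ℚ) ^ t) =
      ∏ u ∈ S, ((Nat.factorial u : ℚ) / (u : ℚ) ^ u)) : T = S :=
  Pool.Agent.P.MP_f92aba_nt.primes_free hT hS e

/-- An explicit relation, with sets of sizes 9 and 7. -/
theorem explicit_sets :
    ∏ t ∈ ({3, 5, 6, 7, 8, 14, 16, 20, 36} : Finset ℕ), ((Nat.factorial t : ℚ) / (t : ℚ) ^ t) =
      ∏ u ∈ ({4, 10, 12, 15, 18, 21, 32} : Finset ℕ), ((Nat.factorial u : ℚ) / (u : ℚ) ^ u) := by
  repeat rw [Finset.prod_insert (by decide)]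
  norm_num [Nat.factorial]

end Pool.Agent.Results.MP_f92aba_nt.DenseRelations
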