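import Pool.Agent.P.MP_f92aba_nt.Short

set_option autoImplicit false

namespace Pool.Agent.Results.MP_f92aba_nt.ShortIntervals

open Filter

/-- For all large `N` the interval from `N` to `N + C N^(2/3) log N` contains two different,
disjoint sets of integers of the same size with the same product of `t! / t^t`. -/
theorem result : ∃ C : ℝ, ∀ᶠ N : ℕ in atTop, ∃ T S : Finset ℕ,
    (∀ t ∈ T ∪ S, N ≤ t ∧ (t : ℝ) ≤ N + C * (N : ℝ) ^ (2 / 3 : ℝ) * Real.log N) ∧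
      T ≠ S ∧ Disjoint T S ∧ T.card = S.card ∧
        ∏ t ∈ T, ((Nat.factorial t : ℚ) / (t : ℚ) ^ t) =
          ∏ u ∈ S, ((Nat.factorial u : ℚ) / (u : ℚ) ^ u) :=
  ⟨1440, Pool.Agent.P.MP_f92aba_nt.Short.main⟩

/-- The negated form of the question follows from any large `N`. -/
theorem negated_form :
    ∃ T S : Finset ℕ, (∀ t ∈ T, 2 ≤ t) ∧ (∀ u ∈ S, 2 ≤ u) ∧ T ≠ S ∧
      ∏ t ∈ T, ((Nat.factorial t : ℚ) / (t : ℚ) ^ t) =
        ∏ u ∈ S, ((Nat.factorial u : ℚ) / (u : ℚ) ^ u) := by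
  obtain ⟨C, hC⟩ := result
  obtain ⟨N, ⟨T, S, h1, h2, -, -, h3⟩, h4⟩ := (hC.and (eventually_ge_atTop 2)).exists
  exact ⟨T, S, fun t ht => h4.trans (h1 t (Finset.mem_union_left _ ht)).1,
    fun t ht => h4.trans (h1 t (Finset.mem_union_right _ ht)).1, h2, h3⟩

end Pool.Agent.Results.MP_f92aba_nt.ShortIntervals
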